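import Pool.Agent.W662.SK.Basic
import Pool.Agent.W662.SK.StmtsA

set_option autoImplicit false

open scoped InnerProductSpace ENNReal

/-!
Difference of two letters.
-/

namespace Pool.Agent.W358.SK

open Pool.Agent.W662.SK

theorem lt_ne_one (p : Fin 3 × Bool) : lt p ≠ 1 := by
  intro h
  have h1 : FreeGroup.toWord (lt p) = [] := by rw [h, FreeGroup.toWord_one]
  unfold lt at h1
  rw [FreeGroup.toWord_mk, FreeGroup.reduce_singleton] at h1
  exact List.cons_ne_nil _ _ h1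

theorem rot_spec (h1 : S_A1) {t : ℝ} (s : G3) (ht0 : 0 ≤ t) (ht1 : t ≤ 1) (hs : s ≠ 1) :
    IsRot t s (Rot t s) := by
  have h := h1 t s ht0 ht1 hs
  unfold Rot
  rw [dif_pos h]
  exact h.choose_spec

theorem a7a (h1 : S_A1) (h2 : S_A2) : S_A7a := by
  intro t r ht0 ht1 hr0 hr1 p ζ
  set s : G3 := lt p with hs
  have hs1 : s ≠ 1 := lt_ne_one p
  have e1 : ∀ (t : ℝ), 0 ≤ t → t ≤ 1 → ∀ x : G3, rp t s ζ x =
      rotFun (cs t) t s (fun y => Lam ℂ s ζ y) x := by
    intro t ht0 ht1 x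
    rw [h2 t ht0 ht1 p]
    exact rot_spec h1 s ht0 ht1 hs1 (Lam ℂ s ζ) x
  refine l2_ext fun x => ?_
  rw [l2_sub_apply, e1 t ht0 ht1, e1 r hr0 hr1]
  simp only [l2_add_apply, l2_smul_apply, l2_sub_apply, inner_dl, smul_eq_mul, Lam_apply, rotFun]
  by_cases hx : x = 1
  · subst hx
    rw [if_pos rfl, if_pos rfl, dl_apply_self, dl_apply_ne hs1.symm, mul_one, inv_mul_cancel]
    push_cast; ring
  · by_cases hxs : x = s
    · subst hxs
      rw [if_neg hx, if_neg hx, if_pos rfl, if_pos rfl, dl_apply_self, dl_apply_ne hx, mul_one,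
        inv_mul_cancel]
      push_cast; ring
    · rw [if_neg hx, if_neg hx, if_neg hxs, if_neg hxs, dl_apply_ne hx, dl_apply_ne hxs]
      ring

end Pool.Agent.W358.SK
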